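import Mathlib

set_option autoImplicit false

namespace Pool.Agent.Helper61.OLB

/-- a finite set of coordinates which determines the elements of `U` -/
theorem ex_J {K I : Type} [Field K] : ∀ (n : ℕ) (U : Submodule K (I → K)) [Module.Finite K U],
    Module.finrank K U ≤ n →
    ∃ J : Finset I, ∀ u ∈ U, (∀ j ∈ J, u j = 0) → u = 0 := by
  intro n
  induction n with
  | zero =>
    intro U _ hn
    refine ⟨∅, fun u hu _ => ?_⟩
    have h0 : Module.finrank K U = 0 := by omega
    rw [Submodule.finrank_eq_zero] at h0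
    rw [h0] at hu
    exact (Submodule.mem_bot K).1 hu
  | succ n ih =>
    intro U _ hn
    classical
    by_cases hU : ∀ u ∈ U, u = 0
    · exact ⟨∅, fun u hu _ => hU u hu⟩
    push Not at hU
    obtain ⟨u, hu, hne⟩ := hU
    have hi : ∃ i, u i ≠ 0 := by
      by_contra h
      push Not at h
      exact hne (funext h)
    obtain ⟨i, hi⟩ := hi
    let U' : Submodule K (I → K) := U ⊓ LinearMap.ker (LinearMap.proj i : (I → K) →ₗ[K] K)
    have : Module.Finite K U' := Submodule.finiteDimensional_of_le (inf_le_left : U' ≤ U)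
    have hlt : U' < U := by
      refine lt_of_le_of_ne inf_le_left ?_
      intro h
      have h2 : u ∈ U' := by rw [h]; exact hu
      exact hi (LinearMap.mem_ker.1 h2.2)
    have h1 := Submodule.finrank_lt_finrank_of_lt hlt
    obtain ⟨J, hJ⟩ := ih U' (by omega)
    refine ⟨insert i J, fun w hw h => ?_⟩
    refine hJ w ⟨hw, LinearMap.mem_ker.2 (h i (Finset.mem_insert_self i J))⟩
      fun j hj => h j (Finset.mem_insert_of_mem hj)

/-- GD -/
theorem descent {K₀ K : Type} [Field K₀] [Field K] [Algebra K₀ K]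
    (hfix : ∀ c : K, (∀ σ : K ≃ₐ[K₀] K, σ c = c) → c ∈ Set.range (algebraMap K₀ K)) {I : Type}
    (U : Submodule K (I → K)) [Module.Finite K U]
    (hU : ∀ σ : K ≃ₐ[K₀] K, ∀ u ∈ U, (fun i => σ (u i)) ∈ U) :
    U ≤ Submodule.span K {u | u ∈ U ∧ ∃ v : I → K₀, u = fun i => algebraMap K₀ K (v i)} := by
  classical
  have hex : ∃ m : ℕ, ∃ J : Finset I, J.card = m ∧ ∀ u ∈ U, (∀ j ∈ J, u j = 0) → u = 0 := by
    obtain ⟨J, hJ⟩ := ex_J _ U le_rfl
    exact ⟨_, J, rfl, hJ⟩
  obtain ⟨J, hJc, hJ⟩ := Nat.find_spec hex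
  have hw : ∀ j ∈ J, ∃ w ∈ U, w j = 1 ∧ ∀ i ∈ J, i ≠ j → w i = 0 := by
    intro j hj
    have hlt : (J.erase j).card < Nat.find hex := by
      rw [← hJc]
      exact Finset.card_erase_lt_of_mem hj
    have hn := Nat.find_min hex hlt
    have hn2 : ∃ u ∈ U, (∀ i ∈ J.erase j, u i = 0) ∧ u ≠ 0 := by
      by_contra hcon
      push Not at hcon
      exact hn ⟨_, rfl, hcon⟩
    obtain ⟨u, hu, h0, hne⟩ := hn2
    have huj : u j ≠ 0 := by
      intro h
      apply hne
      refine hJ u hu fun i hi => ?_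
      by_cases hij : i = j
      · rw [hij, h]
      · exact h0 i (Finset.mem_erase.2 ⟨hij, hi⟩)
    refine ⟨(u j)⁻¹ • u, U.smul_mem _ hu, ?_, ?_⟩
    · rw [Pi.smul_apply, smul_eq_mul, inv_mul_cancel₀ huj]
    · intro i hi hij
      rw [Pi.smul_apply, h0 i (Finset.mem_erase.2 ⟨hij, hi⟩), smul_zero]
  choose! w hwU hw1 hw0 using hw
  intro u hu
  have hsum : u = ∑ j ∈ J, u j • w j := by
    have h1 : u - ∑ j ∈ J, u j • w j = 0 := by
      refine hJ _ (U.sub_mem hu (U.sum_mem fun j hj => U.smul_mem _ (hwU j hj))) fun i hi => ?_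
      rw [Pi.sub_apply, Finset.sum_apply, Finset.sum_eq_single_of_mem i hi]
      · rw [Pi.smul_apply, hw1 i hi, smul_eq_mul, mul_one, sub_self]
      · intro j hj hji
        rw [Pi.smul_apply, hw0 j hj i hi (Ne.symm hji), smul_zero]
    exact sub_eq_zero.1 h1
  rw [hsum]
  refine Submodule.sum_mem _ fun j hj => Submodule.smul_mem _ _ (Submodule.subset_span ?_)
  refine ⟨hwU j hj, ?_⟩
  have hfx : ∀ i, w j i ∈ Set.range (algebraMap K₀ K) := by
    intro i
    apply hfix
    intro σ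
    have h1 : (fun i => σ (w j i)) - w j = 0 := by
      refine hJ _ (U.sub_mem (hU σ _ (hwU j hj)) (hwU j hj)) fun l hl => ?_
      rw [Pi.sub_apply]
      by_cases hlj : l = j
      · rw [hlj, hw1 j hj, map_one, sub_self]
      · rw [hw0 j hj l hl hlj, map_zero, sub_self]
    have h2 := congrFun h1 i
    rw [Pi.sub_apply, Pi.zero_apply] at h2
    exact sub_eq_zero.1 h2
  choose v hv using hfx
  exact ⟨v, funext fun i => (hv i).symm⟩

end Pool.Agent.Helper61.OLB
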